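import Pool.Agent.H28.BF.Stm

/-!
# Project BF, module DIM: the limsup set has dimension zero (helper10 for helper28)
-/

set_option autoImplicit false

namespace Pool.Agent.H10.BF

open Finset Filter Topology Polynomial MeasureTheory MeasureTheory.Measure Pool.Agent.H28.BF
open scoped ENNReal NNReal

/-- a limsup set covered by few small balls at each level has Hausdorff measure zero -/
theorem null_of_cover (B : Set ℝ) (K : ℕ) (R : ℕ → ℝ) (A : ℕ → Finset ℝ) (hR : ∀ j, 0 ≤ R j)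
    (hA : ∀ j, (A j).card ≤ K) (hcov : ∀ J : ℕ, ∀ α ∈ B, ∃ j, J ≤ j ∧ ∃ a ∈ A j, |α - a| ≤ R j)
    (hR1 : Summable R) (s : ℝ) (hs : 0 < s) (hRs : Summable (fun j => (2 * R j) ^ s)) :
    μH[s] B = 0 := by
  have hv : ∑' j, ENNReal.ofReal (2 * R j) ≠ ∞ := by
    rw [← ENNReal.ofReal_tsum_of_nonneg (fun j => by have := hR j; positivity) (hR1.mul_left 2)]
    exact ENNReal.ofReal_ne_top
  have hu : ∑' j, (K : ℝ≥0∞) * ENNReal.ofReal ((2 * R j) ^ s) ≠ ∞ := by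
    rw [ENNReal.tsum_mul_left,
      ← ENNReal.ofReal_tsum_of_nonneg (fun j => by have := hR j; positivity) hRs]
    exact ENNReal.mul_ne_top (ENNReal.natCast_ne_top K) ENNReal.ofReal_ne_top
  have hv0 := ENNReal.tendsto_sum_nat_add (fun j => ENNReal.ofReal (2 * R j)) hv
  have hu0 := ENNReal.tendsto_sum_nat_add (fun j => (K : ℝ≥0∞) * ENNReal.ofReal ((2 * R j) ^ s)) hu
  have hdiam : ∀ (j : ℕ) (a : ℝ), Metric.ediam (Metric.closedBall a (R j)) ≤ ENNReal.ofReal (2 * R j) := by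
    intro j a
    rw [Real.closedBall_eq_Icc, Real.ediam_Icc]
    apply ENNReal.ofReal_le_ofReal
    linarith
  have h := hausdorffMeasure_le_liminf_tsum (X := ℝ) (β := ℕ)
    (ι := fun J => (j : ℕ) × (A (j + J))) s B (l := atTop)
    (fun J => ∑' j, ENNReal.ofReal (2 * R (j + J))) hv0
    (fun J x => Metric.closedBall (x.2 : ℝ) (R (x.1 + J))) ?_ ?_
  · refine le_antisymm (h.trans ?_) bot_le
    have h2 : ∀ J : ℕ, (∑' x : (j : ℕ) × (A (j + J)),
        Metric.ediam (Metric.closedBall (x.2 : ℝ) (R (x.1 + J))) ^ s) ≤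
        ∑' j, (K : ℝ≥0∞) * ENNReal.ofReal ((2 * R (j + J)) ^ s) := by
      intro J
      rw [ENNReal.tsum_sigma']
      refine ENNReal.tsum_le_tsum fun j => ?_
      rw [tsum_fintype]
      refine (Finset.sum_le_card_nsmul _ _ (ENNReal.ofReal ((2 * R (j + J)) ^ s)) ?_).trans ?_
      · intro x _
        rw [← ENNReal.ofReal_rpow_of_nonneg (by have := hR (j + J); positivity) hs.le]
        exact ENNReal.rpow_le_rpow (hdiam _ _) hs.le
      · rw [nsmul_eq_mul]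
        refine mul_le_mul_left ?_ _
        rw [Finset.card_univ, Fintype.card_coe]
        exact_mod_cast hA (j + J)
    refine (liminf_le_liminf (Eventually.of_forall h2)).trans ?_
    rw [hu0.liminf_eq]
  · refine Eventually.of_forall fun J x => ?_
    exact (hdiam _ _).trans (ENNReal.le_tsum (f := fun j => ENNReal.ofReal (2 * R (j + J))) x.1)
  · refine Eventually.of_forall fun J α hα => ?_
    obtain ⟨j, hj, a, ha, hd⟩ := hcov J α hα
    obtain ⟨i, rfl⟩ : ∃ i, j = i + J := ⟨j - J, by omega⟩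
    rw [Set.mem_iUnion]
    refine ⟨⟨i, ⟨a, ha⟩⟩, ?_⟩
    rw [Metric.mem_closedBall, Real.dist_eq]
    exact hd

theorem bad_sub (f : ℕ → ℂ) (hf : ∀ n, ‖f n‖ ≤ 1) (D : ℕ) {δ : ℝ} {N N' : ℕ} (h1 : N' ≤ N)
    (h2 : (N : ℝ) ≤ (1 + δ / 2) * N') (hδ : 0 < δ) : Bad f D N δ ⊆ Bad f D N' (δ / 2) := by
  rintro α ⟨P, hP1, hP2, hP3⟩
  refine ⟨P, hP1, hP2, ?_⟩
  have h3 : ∑ n ∈ Ioc 0 N, f n * ex (P.eval (n : ℝ)) = ∑ n ∈ Ioc 0 N', f n * ex (P.eval (n : ℝ)) +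
      ∑ n ∈ Ioc N' N, f n * ex (P.eval (n : ℝ)) := (sum_Ioc_consecutive _ (Nat.zero_le _) h1).symm
  have hex : ∀ x : ℝ, ‖ex x‖ = 1 := by
    intro x
    unfold ex
    rw [Complex.norm_exp]
    simp
  have h4 : ‖∑ n ∈ Ioc N' N, f n * ex (P.eval (n : ℝ))‖ ≤ (N : ℝ) - N' := by
    calc ‖∑ n ∈ Ioc N' N, f n * ex (P.eval (n : ℝ))‖ ≤ ∑ n ∈ Ioc N' N, (1 : ℝ) := by
          refine norm_sum_le_of_le _ fun n _ => ?_
          rw [norm_mul, hex, mul_one]
          exact hf n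
      _ = (N : ℝ) - N' := by
          rw [sum_const, Nat.card_Ioc, nsmul_eq_mul, mul_one, Nat.cast_sub h1]
  have h5 := norm_add_le (∑ n ∈ Ioc 0 N', f n * ex (P.eval (n : ℝ)))
    (∑ n ∈ Ioc N' N, f n * ex (P.eval (n : ℝ)))
  rw [← h3] at h5
  have h6 : (N' : ℝ) ≤ N := by exact_mod_cast h1
  nlinarith

/-- MODULE DIM -/
theorem t_DIM (hCNT : S_CNT) : S_DIM := by
  intro f hf D hD δ hδ
  obtain ⟨K, hK⟩ := hCNT D hD (δ / 2) (by positivity)
  set ρ : ℝ := 1 + δ / 4 with hρ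
  have hρ1 : 1 < ρ := by rw [hρ]; linarith
  set Nj : ℕ → ℕ := fun j => ⌊ρ ^ j⌋₊ with hNj
  have hpow1 : ∀ j, 1 ≤ ρ ^ j := fun j => one_le_pow₀ hρ1.le
  have hNj1 : ∀ j, 1 ≤ Nj j := by
    intro j
    rw [hNj]
    exact Nat.le_floor (by simpa using hpow1 j)
  have hNj2 : ∀ j, ρ ^ j / 2 ≤ (Nj j : ℝ) := by
    intro j
    have h1 : ρ ^ j < (Nj j : ℝ) + 1 := Nat.lt_floor_add_one _
    have h2 : (1 : ℝ) ≤ Nj j := by exact_mod_cast hNj1 j
    linarith
  have hNj3 : ∀ j, (Nj j : ℝ) ≤ ρ ^ j := fun j => Nat.floor_le (by have := hpow1 j; linarith)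
  set R : ℕ → ℝ := fun j => 1 / (Nj j : ℝ) ^ D with hR
  have hR0 : ∀ j, 0 ≤ R j := fun j => by positivity
  have hRle : ∀ j, R j ≤ 2 ^ D * (ρ⁻¹) ^ j := by
    intro j
    have h2 : (0 : ℝ) < Nj j := by exact_mod_cast hNj1 j
    have h0 : 0 < ρ ^ j := by have := hpow1 j; linarith
    have h3 : ρ ^ j ≤ (ρ ^ j) ^ D := le_self_pow₀ (hpow1 j) (by omega)
    have h4 : (ρ ^ j / 2) ^ D ≤ (Nj j : ℝ) ^ D := pow_le_pow_left₀ (by positivity) (hNj2 j) D
    rw [hR]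
    change 1 / (Nj j : ℝ) ^ D ≤ _
    rw [div_le_iff₀ (by positivity), inv_pow]
    calc (1 : ℝ) = 2 ^ D * (ρ ^ j)⁻¹ * (ρ ^ j / 2 ^ D) := by field_simp
      _ ≤ 2 ^ D * (ρ ^ j)⁻¹ * ((ρ ^ j) ^ D / 2 ^ D) := by gcongr
      _ = 2 ^ D * (ρ ^ j)⁻¹ * (ρ ^ j / 2) ^ D := by rw [div_pow]
      _ ≤ 2 ^ D * (ρ ^ j)⁻¹ * (Nj j : ℝ) ^ D := by gcongr
  have hρi : ρ⁻¹ < 1 := inv_lt_one_of_one_lt₀ hρ1
  have hρi0 : 0 ≤ ρ⁻¹ := by positivity
  have hRsum : Summable R := Summable.of_nonneg_of_le hR0 hRle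
    ((summable_geometric_of_lt_one hρi0 hρi).mul_left _)
  have hRs : ∀ s : ℝ, 0 < s → Summable (fun j => (2 * R j) ^ s) := by
    intro s hs
    have h1 : Summable (fun j : ℕ => (2 * 2 ^ D : ℝ) ^ s * ((ρ⁻¹) ^ s) ^ j) := by
      refine (summable_geometric_of_lt_one (by positivity) ?_).mul_left _
      exact Real.rpow_lt_one hρi0 hρi hs
    refine Summable.of_nonneg_of_le (fun j => by have := hR0 j; positivity) (fun j => ?_) h1
    calc (2 * R j) ^ s ≤ (2 * (2 ^ D * (ρ⁻¹) ^ j)) ^ s :=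
          Real.rpow_le_rpow (by have := hR0 j; positivity) (by have := hRle j; linarith) hs.le
      _ = (2 * 2 ^ D : ℝ) ^ s * ((ρ⁻¹) ^ s) ^ j := by
          rw [← mul_assoc, Real.mul_rpow (by positivity) (by positivity),
            ← Real.rpow_natCast (ρ⁻¹) j, ← Real.rpow_natCast (ρ⁻¹ ^ s) j, ← Real.rpow_mul hρi0,
            ← Real.rpow_mul hρi0, mul_comm s]
  set B : Set ℝ := {α : ℝ | ∃ᶠ N : ℕ in atTop, α ∈ Bad f D N δ} with hB
  have hnull : ∀ s : ℝ, 0 < s → μH[s] B = 0 := by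
    intro s hs
    have hsub : B ⊆ ⋃ m : ℤ, B ∩ Set.Icc (m : ℝ) (m + 1) := by
      intro α hα
      rw [Set.mem_iUnion]
      exact ⟨⌊α⌋, hα, Int.floor_le α, (Int.lt_floor_add_one α).le⟩
    refine measure_mono_null hsub (measure_iUnion_null fun m => ?_)
    have hA := fun j => hK f hf (Nj j) m (hNj1 j)
    choose A hA1 hA2 using hA
    refine null_of_cover _ K R A hR0 hA1 ?_ hRsum s hs (hRs s hs)
    rintro J α ⟨hα, hm1, hm2⟩
    rw [hB, Set.mem_ofPred_eq, frequently_atTop] at hα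
    obtain ⟨N, hN, hbad⟩ := hα (⌈ρ ^ J⌉₊ + ⌈ρ * (2 + 4 / δ)⌉₊)
    have hN1 : ρ ^ J ≤ (N : ℝ) := by
      refine (Nat.le_ceil _).trans ?_
      exact_mod_cast (Nat.le_add_right _ _).trans hN
    have hN2 : ρ * (2 + 4 / δ) ≤ (N : ℝ) := by
      refine (Nat.le_ceil _).trans ?_
      exact_mod_cast (Nat.le_add_left _ _).trans hN
    obtain ⟨j, hj1, hj2⟩ := exists_nat_pow_near ((hpow1 J).trans hN1) hρ1
    have hJj : J ≤ j := by
      by_contra hlt
      push Not at hlt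
      have h1 : ρ ^ (j + 1) ≤ ρ ^ J := pow_le_pow_right₀ hρ1.le hlt
      linarith
    refine ⟨j, hJj, ?_⟩
    have h1 : ρ ^ j < (Nj j : ℝ) + 1 := Nat.lt_floor_add_one _
    have h2 : (2 + 4 / δ) < ρ ^ j := by
      have h3 : ρ * (2 + 4 / δ) < ρ * ρ ^ j := by
        calc ρ * (2 + 4 / δ) ≤ N := hN2
          _ < ρ ^ (j + 1) := hj2
          _ = ρ * ρ ^ j := by ring
      exact lt_of_mul_lt_mul_left h3 (by linarith)
    have h4 : 1 + 4 / δ ≤ (Nj j : ℝ) := by linarith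
    have h5 : Nj j ≤ N := by
      have : (Nj j : ℝ) ≤ N := (hNj3 j).trans hj1
      exact_mod_cast this
    have h6 : (N : ℝ) ≤ (1 + δ / 2) * Nj j := by
      have h7 : (N : ℝ) ≤ ρ * (Nj j + 1) := by
        calc (N : ℝ) ≤ ρ ^ (j + 1) := hj2.le
          _ = ρ * ρ ^ j := by ring
          _ ≤ ρ * (Nj j + 1) := by
              refine mul_le_mul_of_nonneg_left h1.le (by linarith)
      have h8 : δ + 4 ≤ δ * Nj j := by
        have := mul_le_mul_of_nonneg_left h4 hδ.le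
        rw [mul_add, mul_one, mul_div_cancel₀ _ hδ.ne'] at this
        exact this
      rw [hρ] at h7
      nlinarith
    exact hA2 j α (bad_sub f hf D h5 h6 hδ hbad) hm1 hm2
  by_contra hne
  have hpos : 0 < dimH B := pos_iff_ne_zero.2 hne
  obtain ⟨s, hs1, hs2⟩ := ENNReal.lt_iff_exists_nnreal_btwn.1 hpos
  have hs0 : 0 < (s : ℝ) := by exact_mod_cast hs1
  have h1 := dimH_le_of_hausdorffMeasure_ne_top (d := s) (s := B) (by
    rw [hnull s hs0]
    exact ENNReal.zero_ne_top)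
  exact absurd hs2 (not_lt.2 h1)

end Pool.Agent.H10.BF
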